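import Pool.Agent.H8.Axial

/-!
# Blocks of primitive axial algebras may be decomposable

For a field `F`, all blocks of all primitive axial algebras over `F` are indecomposable if and
only if `F` has exactly two elements. For every other field and every `r ≠ 0, 1` in it we give a
commutative algebra of dimension five, generated by three primitive axes `a, b, c` with
eigenvalues in `{1, 0, r}`, such that the block of `a` is the direct sum of two proper ideals.
-/

namespace Pool.Agent.Results.MP_89b943_al.BlocksIffTwo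

open Pool.Agent.H8.Axial

universe u

/-! ### The field with two elements -/

theorem two_elements (F : Type u) [Field F] (hF : Nat.card F = 2)
    (A : Type u) [NonUnitalNonAssocCommRing A] [Module F A] [IsScalarTower F A A]
    [SMulCommClass F A A] (L : FusionLaw F) (a : A) (ha : IsPrimitiveAxis L a) :
    ¬ Decomposable F (block F a) := by
  have h01 : ∀ r : F, r = 0 ∨ r = 1 := by
    intro r
    by_contra hr
    push Not at hr
    have : Finite F := Nat.finite_of_card_ne_zero (by omega)
    have := Fintype.ofFinite F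
    rw [Nat.card_eq_fintype_card] at hF
    classical
    have h3 : ({0, 1, r} : Finset F).card ≤ Fintype.card F := Finset.card_le_univ _
    rw [Finset.card_insert_of_notMem, Finset.card_insert_of_notMem, Finset.card_singleton] at h3
    · omega
    · simpa using hr.2.symm
    · simpa using hr.1.symm
  -- multiplication by `a` has image in the span of `a`
  have hmul : ∀ x : A, a * x ∈ Submodule.span F {a} := by
    have htop : (⊤ : Submodule F A) ≤
        (Submodule.span F {a}).comap (LinearMap.mulLeft F a) := by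
      rw [← ha.decomp, eigSum]
      refine iSup₂_le fun r _ x hx => ?_
      have hx' : a * x = (r : F) • x := Module.End.mem_eigenspace_iff.mp hx
      rw [Submodule.mem_comap, LinearMap.mulLeft_apply, hx']
      rcases h01 r with h | h
      · rw [h, zero_smul]; exact zero_mem _
      · rw [h, one_smul]
        have : x ∈ eig F a (1 : F) := by rw [← h]; exact hx
        rwa [ha.primitive] at this
    intro x
    exact htop (Submodule.mem_top : x ∈ _)
  have hspan : IsIdeal (Submodule.span F {a}) := by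
    intro x y hy
    obtain ⟨t, rfl⟩ := Submodule.mem_span_singleton.mp hy
    constructor
    · rw [mul_smul_comm, mul_comm]; exact Submodule.smul_mem _ _ (hmul x)
    · rw [smul_mul_assoc]; exact Submodule.smul_mem _ _ (hmul x)
  have hle : idealOf F a ≤ Submodule.span F {a} :=
    idealOf_le hspan (Submodule.mem_span_singleton_self a)
  -- every proper ideal of the block is zero
  intro hdec
  have hbot : sSup {J : Submodule F (block F a) | IsIdeal J ∧ J ≠ ⊤} ≤ ⊥ := by
    refine sSup_le ?_
    rintro J ⟨_, hJ⟩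
    by_contra hJ0
    apply hJ
    rw [le_bot_iff] at hJ0
    obtain ⟨y, hy, hy0⟩ := J.ne_bot_iff.mp hJ0
    rw [eq_top_iff]
    rintro z -
    obtain ⟨t, ht⟩ := Submodule.mem_span_singleton.mp (hle y.2)
    obtain ⟨s, hs⟩ := Submodule.mem_span_singleton.mp (hle z.2)
    have ht0 : t ≠ 0 := by
      rintro rfl
      apply hy0
      ext
      rw [← ht]; simp
    have : z = (s * t⁻¹) • y := by
      ext
      rw [NonUnitalSubalgebra.coe_smul, ← ht, ← hs, smul_smul, mul_assoc, inv_mul_cancel₀ ht0,
        mul_one]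
    rw [this]
    exact J.smul_mem _ hy
  rw [hdec, top_le_iff] at hbot
  have h1 : (⟨a, mem_idealOf a⟩ : block F a) ∈ (⊥ : Submodule F (block F a)) := by
    rw [hbot]; exact Submodule.mem_top
  rw [Submodule.mem_bot] at h1
  exact ha.ne_zero (congrArg Subtype.val h1)

/-! ### The example -/

/-- The underlying space of the example; the fields are the coordinates of an element with
respect to the basis `a, b, c, u, n`. -/
@[ext] structure E (F : Type u) (r : F) : Type u where
  /-- coordinate of `a` -/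
  xa : F
  /-- coordinate of `b` -/
  xb : F
  /-- coordinate of `c` -/
  xc : F
  /-- coordinate of `u` -/
  xu : F
  /-- coordinate of `n` -/
  xn : F

namespace E

variable {F : Type u} [Field F] {r : F}

instance : Zero (E F r) := ⟨⟨0, 0, 0, 0, 0⟩⟩
instance : Add (E F r) :=
  ⟨fun x y => ⟨x.xa + y.xa, x.xb + y.xb, x.xc + y.xc, x.xu + y.xu, x.xn + y.xn⟩⟩
instance : Neg (E F r) := ⟨fun x => ⟨-x.xa, -x.xb, -x.xc, -x.xu, -x.xn⟩⟩
instance : Sub (E F r) :=
  ⟨fun x y => ⟨x.xa - y.xa, x.xb - y.xb, x.xc - y.xc, x.xu - y.xu, x.xn - y.xn⟩⟩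
instance : SMul F (E F r) := ⟨fun t x => ⟨t * x.xa, t * x.xb, t * x.xc, t * x.xu, t * x.xn⟩⟩
instance : SMul ℕ (E F r) := ⟨fun t x => ⟨t • x.xa, t • x.xb, t • x.xc, t • x.xu, t • x.xn⟩⟩
instance : SMul ℤ (E F r) := ⟨fun t x => ⟨t • x.xa, t • x.xb, t • x.xc, t • x.xu, t • x.xn⟩⟩

/-- The coordinates. -/
def toP (x : E F r) : F × F × F × F × F := (x.xa, x.xb, x.xc, x.xu, x.xn)

omit [Field F] in
theorem toP_injective : Function.Injective (toP : E F r → F × F × F × F × F) := by
  intro x y h
  simp only [toP, Prod.mk.injEq] at h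
  exact E.ext h.1 h.2.1 h.2.2.1 h.2.2.2.1 h.2.2.2.2

instance : AddCommGroup (E F r) :=
  toP_injective.addCommGroup toP rfl (fun _ _ => rfl) (fun _ => rfl) (fun _ _ => rfl)
    (fun _ _ => rfl) (fun _ _ => rfl)

instance : Module F (E F r) :=
  toP_injective.module F ⟨⟨toP, rfl⟩, fun _ _ => rfl⟩ (fun _ _ => rfl)

/-- The multiplication: `aa = a`, `bb = b`, `cc = c`, `ab = au = bu = r u`, `cu = cn = r n`, and
all the other products of basis vectors are zero. -/
instance : Mul (E F r) where
  mul x y := ⟨x.xa * y.xa, x.xb * y.xb, x.xc * y.xc,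
    r * (x.xa * y.xb + x.xb * y.xa + x.xa * y.xu + x.xu * y.xa + x.xb * y.xu + x.xu * y.xb),
    r * (x.xc * y.xu + x.xu * y.xc + x.xc * y.xn + x.xn * y.xc)⟩

@[simp] theorem mul_a (x y : E F r) : (x * y).xa = x.xa * y.xa := rfl
@[simp] theorem mul_b (x y : E F r) : (x * y).xb = x.xb * y.xb := rfl
@[simp] theorem mul_c (x y : E F r) : (x * y).xc = x.xc * y.xc := rfl
@[simp] theorem mul_u (x y : E F r) : (x * y).xu =
    r * (x.xa * y.xb + x.xb * y.xa + x.xa * y.xu + x.xu * y.xa + x.xb * y.xu + x.xu * y.xb) := rfl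
@[simp] theorem mul_n (x y : E F r) : (x * y).xn =
    r * (x.xc * y.xu + x.xu * y.xc + x.xc * y.xn + x.xn * y.xc) := rfl
@[simp] theorem add_a (x y : E F r) : (x + y).xa = x.xa + y.xa := rfl
@[simp] theorem add_b (x y : E F r) : (x + y).xb = x.xb + y.xb := rfl
@[simp] theorem add_c (x y : E F r) : (x + y).xc = x.xc + y.xc := rfl
@[simp] theorem add_u (x y : E F r) : (x + y).xu = x.xu + y.xu := rfl
@[simp] theorem add_n (x y : E F r) : (x + y).xn = x.xn + y.xn := rfl
@[simp] theorem smul_a (t : F) (y : E F r) : (t • y).xa = t * y.xa := rfl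
@[simp] theorem smul_b (t : F) (y : E F r) : (t • y).xb = t * y.xb := rfl
@[simp] theorem smul_c (t : F) (y : E F r) : (t • y).xc = t * y.xc := rfl
@[simp] theorem smul_u (t : F) (y : E F r) : (t • y).xu = t * y.xu := rfl
@[simp] theorem smul_n (t : F) (y : E F r) : (t • y).xn = t * y.xn := rfl
@[simp] theorem zero_a : (0 : E F r).xa = 0 := rfl
@[simp] theorem zero_b : (0 : E F r).xb = 0 := rfl
@[simp] theorem zero_c : (0 : E F r).xc = 0 := rfl
@[simp] theorem zero_u : (0 : E F r).xu = 0 := rfl
@[simp] theorem zero_n : (0 : E F r).xn = 0 := rfl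

instance : NonUnitalNonAssocCommRing (E F r) where
  left_distrib x y z := by ext <;> simp <;> ring
  right_distrib x y z := by ext <;> simp <;> ring
  zero_mul x := by ext <;> simp
  mul_zero x := by ext <;> simp
  mul_comm x y := by ext <;> simp only [mul_a, mul_b, mul_c, mul_u, mul_n] <;> ring

instance : IsScalarTower F (E F r) (E F r) where
  smul_assoc t x y := by
    ext <;> simp only [smul_eq_mul, mul_a, mul_b, mul_c, mul_u, mul_n, smul_a, smul_b, smul_c,
      smul_u, smul_n] <;> ring

instance : SMulCommClass F (E F r) (E F r) where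
  smul_comm t x y := by
    ext <;> simp only [smul_eq_mul, mul_a, mul_b, mul_c, mul_u, mul_n, smul_a, smul_b, smul_c,
      smul_u, smul_n] <;> ring

/-- The basis vector `a`. -/
def a : E F r := ⟨1, 0, 0, 0, 0⟩
/-- The basis vector `b`. -/
def b : E F r := ⟨0, 1, 0, 0, 0⟩
/-- The basis vector `c`. -/
def c : E F r := ⟨0, 0, 1, 0, 0⟩
/-- The basis vector `u`. -/
def u : E F r := ⟨0, 0, 0, 1, 0⟩
/-- The basis vector `n`. -/
def n : E F r := ⟨0, 0, 0, 0, 1⟩

/-- The fusion law: eigenvalues `1, 0, r`, without any restriction on the products. -/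
def law (F : Type u) [Field F] (r : F) : FusionLaw F where
  carrier := {1, 0, r}
  one_mem := by simp
  star _ _ := Set.univ

theorem mem_eig {x y : E F r} {s : F} : y ∈ eig F x s ↔ x * y = s • y :=
  Module.End.mem_eigenspace_iff

theorem axis_of {x : E F r} (hne : x ≠ 0) (hidem : x * x = x)
    (hprim : ∀ y, x * y = y → ∃ t : F, t • x = y)
    (h : ∀ y : E F r, ∃ y1 y0 yr, x * y1 = y1 ∧ x * y0 = 0 ∧ x * yr = r • yr ∧
      y = y1 + y0 + yr) : IsPrimitiveAxis (law F r) x := by
  have dec : eigSum (law F r) x Set.univ = ⊤ := by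
    rw [eq_top_iff]
    intro y _
    obtain ⟨y1, y0, yr, h1, h0, hr, rfl⟩ := h y
    have hle : ∀ s : (law F r).carrier, eig F x (s : F) ≤ eigSum (law F r) x Set.univ := by
      intro s
      exact le_iSup₂_of_le s (Set.mem_univ _) le_rfl
    refine add_mem (add_mem ?_ ?_) ?_
    · exact hle ⟨1, by simp [law]⟩ (mem_eig.mpr (by rw [h1, one_smul]))
    · exact hle ⟨0, by simp [law]⟩ (mem_eig.mpr (by rw [h0, zero_smul]))
    · exact hle ⟨r, by simp [law]⟩ (mem_eig.mpr hr)
  refine ⟨hne, hidem, dec, ?_, ?_⟩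
  · intro s t x' _ y _
    show x' * y ∈ eigSum (law F r) x Set.univ
    rw [dec]; exact Submodule.mem_top
  · apply le_antisymm
    · intro y hy
      rw [mem_eig, one_smul] at hy
      exact Submodule.mem_span_singleton.mpr (hprim y hy)
    · rw [Submodule.span_singleton_le_iff_mem, mem_eig, one_smul]
      exact hidem

theorem axis_a (h1 : r ≠ 1) : IsPrimitiveAxis (law F r) (a : E F r) := by
  apply axis_of
  · intro h
    have := congrArg xa h
    simp [a] at this
  · ext <;> simp [a]
  · intro y hy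
    have eb := congrArg xb hy
    have ec := congrArg xc hy
    have eu := congrArg xu hy
    have en := congrArg xn hy
    simp only [a, mul_b, mul_c, mul_u, mul_n, zero_mul, one_mul, add_zero, zero_add,
      mul_zero] at eb ec eu en
    rw [← eb, zero_add] at eu
    have eu' : y.xu = 0 := by
      have : (r - 1) * y.xu = 0 := by rw [sub_mul, eu]; ring
      rcases mul_eq_zero.mp this with h | h
      · exact absurd (sub_eq_zero.mp h) h1
      · exact h
    refine ⟨y.xa, ?_⟩
    ext <;> simp [a, ← eb, ← ec, eu', ← en]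
  · intro y
    refine ⟨⟨y.xa, 0, 0, 0, 0⟩, ⟨0, y.xb, y.xc, - y.xb, y.xn⟩, ⟨0, 0, 0, y.xb + y.xu, 0⟩,
      ?_, ?_, ?_, ?_⟩ <;> ext <;> simp [a]

theorem axis_b (h1 : r ≠ 1) : IsPrimitiveAxis (law F r) (b : E F r) := by
  apply axis_of
  · intro h
    have := congrArg xb h
    simp [b] at this
  · ext <;> simp [b]
  · intro y hy
    have ea := congrArg xa hy
    have ec := congrArg xc hy
    have eu := congrArg xu hy
    have en := congrArg xn hy
    simp only [b, mul_a, mul_c, mul_u, mul_n, zero_mul, one_mul, add_zero, zero_add,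
      mul_zero] at ea ec eu en
    rw [← ea, zero_add] at eu
    have eu' : y.xu = 0 := by
      have : (r - 1) * y.xu = 0 := by rw [sub_mul, eu]; ring
      rcases mul_eq_zero.mp this with h | h
      · exact absurd (sub_eq_zero.mp h) h1
      · exact h
    refine ⟨y.xb, ?_⟩
    ext <;> simp [b, ← ea, ← ec, eu', ← en]
  · intro y
    refine ⟨⟨0, y.xb, 0, 0, 0⟩, ⟨y.xa, 0, y.xc, - y.xa, y.xn⟩, ⟨0, 0, 0, y.xa + y.xu, 0⟩,
      ?_, ?_, ?_, ?_⟩ <;> ext <;> simp [b]

theorem axis_c (h1 : r ≠ 1) : IsPrimitiveAxis (law F r) (c : E F r) := by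
  apply axis_of
  · intro h
    have := congrArg xc h
    simp [c] at this
  · ext <;> simp [c]
  · intro y hy
    have ea := congrArg xa hy
    have eb := congrArg xb hy
    have eu := congrArg xu hy
    have en := congrArg xn hy
    simp only [c, mul_a, mul_b, mul_u, mul_n, zero_mul, one_mul, add_zero, zero_add,
      mul_zero] at ea eb eu en
    rw [← eu, zero_add] at en
    have en' : y.xn = 0 := by
      have : (r - 1) * y.xn = 0 := by rw [sub_mul, en]; ring
      rcases mul_eq_zero.mp this with h | h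
      · exact absurd (sub_eq_zero.mp h) h1
      · exact h
    refine ⟨y.xc, ?_⟩
    ext <;> simp [c, ← ea, ← eb, ← eu, en']
  · intro y
    refine ⟨⟨0, 0, y.xc, 0, 0⟩, ⟨y.xa, y.xb, 0, y.xu, - y.xu⟩, ⟨0, 0, 0, 0, y.xu + y.xn⟩,
      ?_, ?_, ?_, ?_⟩ <;> ext <;> simp [c]

theorem ab : (a : E F r) * b = r • u := by ext <;> simp [a, b, u]
theorem cu : (c : E F r) * u = r • n := by ext <;> simp [c, u, n]

theorem isAxial (h0 : r ≠ 0) (h1 : r ≠ 1) :
    IsPrimitiveAxialAlgebra (law F r) ({a, b, c} : Set (E F r)) := by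
  refine ⟨?_, ?_⟩
  · rintro x (rfl | rfl | rfl)
    · exact axis_a h1
    · exact axis_b h1
    · exact axis_c h1
  · rw [eq_top_iff]
    rintro x -
    have ha : (a : E F r) ∈ NonUnitalAlgebra.adjoin F ({a, b, c} : Set (E F r)) :=
      NonUnitalAlgebra.subset_adjoin F (by simp)
    have hb : (b : E F r) ∈ NonUnitalAlgebra.adjoin F ({a, b, c} : Set (E F r)) :=
      NonUnitalAlgebra.subset_adjoin F (by simp)
    have hc : (c : E F r) ∈ NonUnitalAlgebra.adjoin F ({a, b, c} : Set (E F r)) :=
      NonUnitalAlgebra.subset_adjoin F (by simp)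
    have hu : (u : E F r) ∈ NonUnitalAlgebra.adjoin F ({a, b, c} : Set (E F r)) := by
      have : (u : E F r) = r⁻¹ • (a * b) := by rw [ab, smul_smul, inv_mul_cancel₀ h0, one_smul]
      rw [this]
      exact SMulMemClass.smul_mem _ (mul_mem ha hb)
    have hn : (n : E F r) ∈ NonUnitalAlgebra.adjoin F ({a, b, c} : Set (E F r)) := by
      have : (n : E F r) = r⁻¹ • (c * u) := by rw [cu, smul_smul, inv_mul_cancel₀ h0, one_smul]
      rw [this]
      exact SMulMemClass.smul_mem _ (mul_mem hc hu)
    have hx : x = x.xa • a + x.xb • b + x.xc • c + x.xu • u + x.xn • n := by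
      ext <;> simp [a, b, c, u, n]
    rw [hx]
    exact add_mem (add_mem (add_mem (add_mem (SMulMemClass.smul_mem _ ha)
      (SMulMemClass.smul_mem _ hb)) (SMulMemClass.smul_mem _ hc)) (SMulMemClass.smul_mem _ hu))
      (SMulMemClass.smul_mem _ hn)

/-- The block of `a` is contained in the span of `a, u, n`. -/
theorem block_coord {x : E F r} (hx : x ∈ idealOf F (a : E F r)) : x.xb = 0 ∧ x.xc = 0 := by
  let I : Submodule F (E F r) :=
    { carrier := {x | x.xb = 0 ∧ x.xc = 0}
      add_mem' := by
        rintro x y ⟨h1, h2⟩ ⟨h3, h4⟩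
        exact ⟨by simp [h1, h3], by simp [h2, h4]⟩
      zero_mem' := ⟨rfl, rfl⟩
      smul_mem' := by
        rintro t x ⟨h1, h2⟩
        exact ⟨by simp [h1], by simp [h2]⟩ }
  have hI : IsIdeal I := by
    rintro x y ⟨h1, h2⟩
    exact ⟨⟨by simp [h1], by simp [h2]⟩, ⟨by simp [h1], by simp [h2]⟩⟩
  exact idealOf_le hI (show (a : E F r) ∈ I from ⟨rfl, rfl⟩) hx

theorem u_mem (h0 : r ≠ 0) : (u : E F r) ∈ idealOf F (a : E F r) := by
  have : (u : E F r) = r⁻¹ • (a * b) := by rw [ab, smul_smul, inv_mul_cancel₀ h0, one_smul]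
  rw [this]
  exact Submodule.smul_mem _ _ (idealOf_isIdeal a b a (mem_idealOf a)).2

theorem n_mem (h0 : r ≠ 0) : (n : E F r) ∈ idealOf F (a : E F r) := by
  have : (n : E F r) = r⁻¹ • (c * u) := by rw [cu, smul_smul, inv_mul_cancel₀ h0, one_smul]
  rw [this]
  exact Submodule.smul_mem _ _ (idealOf_isIdeal a c u (u_mem h0)).1

theorem decomposable (h0 : r ≠ 0) : Decomposable F (block F (a : E F r)) := by
  -- the two ideals
  let J0 : Submodule F (block F (a : E F r)) :=
    { carrier := {x | (x : E F r).xn = 0}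
      add_mem' := by
        intro x y h1 h2
        have h1' : (x : E F r).xn = 0 := h1
        have h2' : (y : E F r).xn = 0 := h2
        show ((x + y : block F (a : E F r)) : E F r).xn = 0
        simp [h1', h2']
      zero_mem' := rfl
      smul_mem' := by
        intro t x h1
        have h1' : (x : E F r).xn = 0 := h1
        show ((t • x : block F (a : E F r)) : E F r).xn = 0
        simp [h1'] }
  let J1 : Submodule F (block F (a : E F r)) :=
    { carrier := {x | (x : E F r).xa = 0 ∧ (x : E F r).xu = 0}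
      add_mem' := by
        rintro x y ⟨h1, h2⟩ ⟨h3, h4⟩
        exact ⟨by simp [h1, h3], by simp [h2, h4]⟩
      zero_mem' := ⟨rfl, rfl⟩
      smul_mem' := by
        rintro t x ⟨h1, h2⟩
        exact ⟨by simp [h1], by simp [h2]⟩ }
  have hJ0 : IsIdeal J0 := by
    intro x y _
    obtain ⟨hx1, hx2⟩ := block_coord x.2
    obtain ⟨hy1, hy2⟩ := block_coord y.2
    constructor
    · show ((x * y : block F (a : E F r)) : E F r).xn = 0
      simp [hx2, hy2]
    · show ((y * x : block F (a : E F r)) : E F r).xn = 0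
      simp [hx2, hy2]
  have hJ1 : IsIdeal J1 := by
    rintro x y ⟨h1, h2⟩
    obtain ⟨hx1, hx2⟩ := block_coord x.2
    obtain ⟨hy1, hy2⟩ := block_coord y.2
    exact ⟨⟨by simp [h1], by simp [h1, h2, hx1, hy1]⟩, ⟨by simp [h1], by simp [h1, h2, hx1, hy1]⟩⟩
  have hJ0' : J0 ≠ ⊤ := by
    intro h
    have h1 : (⟨n, n_mem h0⟩ : block F (a : E F r)) ∈ J0 := by rw [h]; exact Submodule.mem_top
    have h2 : (n : E F r).xn = 0 := h1
    simp [n] at h2
  have hJ1' : J1 ≠ ⊤ := by
    intro h
    have h1 : (⟨a, mem_idealOf a⟩ : block F (a : E F r)) ∈ J1 := by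
      rw [h]; exact Submodule.mem_top
    have h2 : (a : E F r).xa = 0 := h1.1
    simp [a] at h2
  unfold Decomposable
  rw [eq_top_iff]
  rintro x -
  have e0 : J0 ≤ sSup {J : Submodule F (block F (a : E F r)) | IsIdeal J ∧ J ≠ ⊤} :=
    le_sSup ⟨hJ0, hJ0'⟩
  have e1 : J1 ≤ sSup {J : Submodule F (block F (a : E F r)) | IsIdeal J ∧ J ≠ ⊤} :=
    le_sSup ⟨hJ1, hJ1'⟩
  obtain ⟨hx1, hx2⟩ := block_coord x.2
  let y0 : block F (a : E F r) := (x : E F r).xa • ⟨a, mem_idealOf a⟩ +
    (x : E F r).xu • ⟨u, u_mem h0⟩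
  let y1 : block F (a : E F r) := (x : E F r).xn • ⟨n, n_mem h0⟩
  have hy0 : y0 ∈ J0 := by
    show ((x : E F r).xa • (a : E F r) + (x : E F r).xu • (u : E F r)).xn = 0
    simp [a, u]
  have hy1 : y1 ∈ J1 := by
    refine ⟨?_, ?_⟩
    · show ((x : E F r).xn • (n : E F r)).xa = 0
      simp [n]
    · show ((x : E F r).xn • (n : E F r)).xu = 0
      simp [n]
  have hxy : x = y0 + y1 := by
    apply Subtype.ext
    show (x : E F r) = (x : E F r).xa • (a : E F r) + (x : E F r).xu • (u : E F r) +
      (x : E F r).xn • (n : E F r)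
    ext <;> simp [a, u, n, hx1, hx2]
  rw [hxy]
  exact add_mem (e0 hy0) (e1 hy1)

end E

/-- A field other than the field with two elements has an element different from `0` and `1`. -/
theorem exists_ne (F : Type u) [Field F] (hF : Nat.card F ≠ 2) : ∃ r : F, r ≠ 0 ∧ r ≠ 1 := by
  by_contra h
  push Not at h
  apply hF
  classical
  have huniv : (Set.univ : Set F) = {0, 1} := by
    ext x
    simp only [Set.mem_univ, Set.mem_insert_iff, Set.mem_singleton_iff, true_iff]
    by_cases hx : x = 0
    · exact Or.inl hx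
    · exact Or.inr (h x hx)
  rw [← Set.ncard_univ, huniv]
  exact Set.ncard_pair zero_ne_one

/-- For a field `F`, all blocks of all primitive axial algebras over `F` (for all fusion laws)
are indecomposable if and only if `F` has exactly two elements. -/
theorem result (F : Type u) [Field F] :
    (∀ (A : Type u) [NonUnitalNonAssocCommRing A] [Module F A] [IsScalarTower F A A]
      [SMulCommClass F A A] (L : FusionLaw F) (X : Set A), IsPrimitiveAxialAlgebra L X →
      ∀ a ∈ X, ¬ Decomposable F (block F a)) ↔ Nat.card F = 2 := by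
  constructor
  · intro h
    by_contra hF
    obtain ⟨r, h0, h1⟩ := exists_ne F hF
    exact h (E F r) (E.law F r) {E.a, E.b, E.c} (E.isAxial h0 h1) E.a (by simp)
      (E.decomposable h0)
  · intro hF A _ _ _ _ L X hX a ha
    exact two_elements F hF A L a (hX.axes a ha)

end Pool.Agent.Results.MP_89b943_al.BlocksIffTwo
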