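import Pool.Agent.H8.Axial

/-!
# Decomposable blocks for graded Seress fusion laws

Over every field of characteristic different from two with more than five elements we give a
commutative algebra of dimension five, generated by two primitive axes `a, b` for a fusion law
that is Seress and graded by the group of order two (in such a way that `a` has a nonzero odd
part), such that the block of `a` is the direct sum of two proper ideals.
-/

namespace Pool.Agent.Results.MP_89b943_al.SeressBlocks

open Pool.Agent.H8.Axial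

universe u

/-- A fusion law is Seress if it contains `0` and `0 * s ⊆ {s}`, `s * 0 ⊆ {s}` for all `s`. -/
def IsSeress {F : Type u} [Field F] (L : FusionLaw F) : Prop :=
  ∃ h : (0 : F) ∈ L.carrier, ∀ s : L.carrier,
    L.star ⟨0, h⟩ s ⊆ {s} ∧ L.star s ⟨0, h⟩ ⊆ {s}

/-- `d` is a grading of the fusion law by the group `ZMod 2`. -/
def IsGrading {F : Type u} [Field F] (L : FusionLaw F) (d : L.carrier → ZMod 2) : Prop :=
  ∀ r s t : L.carrier, t ∈ L.star r s → d t = d r + d s

/-- The underlying space of the example; the fields are the coordinates of an element with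
respect to the basis `a, v, w, n, b`. -/
@[ext] structure E (F : Type u) (p s : F) : Type u where
  /-- coordinate of `a` -/
  xa : F
  /-- coordinate of `v` -/
  xv : F
  /-- coordinate of `w` -/
  xw : F
  /-- coordinate of `n` -/
  xn : F
  /-- coordinate of `b` -/
  xb : F

namespace E

variable {F : Type u} [Field F] {p s : F}

instance : Zero (E F p s) := ⟨⟨0, 0, 0, 0, 0⟩⟩
instance : Add (E F p s) :=
  ⟨fun x y => ⟨x.xa + y.xa, x.xv + y.xv, x.xw + y.xw, x.xn + y.xn, x.xb + y.xb⟩⟩
instance : Neg (E F p s) := ⟨fun x => ⟨-x.xa, -x.xv, -x.xw, -x.xn, -x.xb⟩⟩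
instance : Sub (E F p s) :=
  ⟨fun x y => ⟨x.xa - y.xa, x.xv - y.xv, x.xw - y.xw, x.xn - y.xn, x.xb - y.xb⟩⟩
instance : SMul F (E F p s) := ⟨fun t x => ⟨t * x.xa, t * x.xv, t * x.xw, t * x.xn, t * x.xb⟩⟩
instance : SMul ℕ (E F p s) := ⟨fun t x => ⟨t • x.xa, t • x.xv, t • x.xw, t • x.xn, t • x.xb⟩⟩
instance : SMul ℤ (E F p s) := ⟨fun t x => ⟨t • x.xa, t • x.xv, t • x.xw, t • x.xn, t • x.xb⟩⟩

/-- The coordinates. -/
def toP (x : E F p s) : F × F × F × F × F := (x.xa, x.xv, x.xw, x.xn, x.xb)

omit [Field F] in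
theorem toP_injective : Function.Injective (toP : E F p s → F × F × F × F × F) := by
  intro x y h
  simp only [toP, Prod.mk.injEq] at h
  exact E.ext h.1 h.2.1 h.2.2.1 h.2.2.2.1 h.2.2.2.2

instance : AddCommGroup (E F p s) :=
  toP_injective.addCommGroup toP rfl (fun _ _ => rfl) (fun _ => rfl) (fun _ _ => rfl)
    (fun _ _ => rfl) (fun _ _ => rfl)

instance : Module F (E F p s) :=
  toP_injective.module F ⟨⟨toP, rfl⟩, fun _ _ => rfl⟩ (fun _ _ => rfl)

/-- The coordinates, as a linear equivalence. -/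
def equivP : E F p s ≃ₗ[F] F × F × F × F × F where
  toFun := toP
  invFun x := ⟨x.1, x.2.1, x.2.2.1, x.2.2.2.1, x.2.2.2.2⟩
  left_inv _ := rfl
  right_inv _ := rfl
  map_add' _ _ := rfl
  map_smul' _ _ := rfl

theorem finrank_eq : Module.finrank F (E F p s) = 5 := by
  rw [(equivP (F := F) (p := p) (s := s)).finrank_eq]
  simp [Module.finrank_prod]

/-- The multiplication: `aa = a`, `bb = b`, `av = p² v`, `ab = (a + p v) / 2`,
`bv = (p a + v) / 2 + w`, `bw = s w + n`, `vv = p² a + 2 p w`,
and `aw, an, bn, vw, vn, ww, wn, nn` are zero. -/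
instance : Mul (E F p s) where
  mul x y := ⟨
    x.xa * y.xa + 2⁻¹ * (x.xa * y.xb + x.xb * y.xa) + 2⁻¹ * p * (x.xb * y.xv + x.xv * y.xb) +
      p ^ 2 * (x.xv * y.xv),
    p ^ 2 * (x.xa * y.xv + x.xv * y.xa) + 2⁻¹ * p * (x.xa * y.xb + x.xb * y.xa) +
      2⁻¹ * (x.xb * y.xv + x.xv * y.xb),
    (x.xb * y.xv + x.xv * y.xb) + s * (x.xb * y.xw + x.xw * y.xb) + 2 * p * (x.xv * y.xv),
    x.xb * y.xw + x.xw * y.xb,
    x.xb * y.xb⟩

@[simp] theorem mul_a (x y : E F p s) : (x * y).xa =
    x.xa * y.xa + 2⁻¹ * (x.xa * y.xb + x.xb * y.xa) + 2⁻¹ * p * (x.xb * y.xv + x.xv * y.xb) +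
      p ^ 2 * (x.xv * y.xv) := rfl
@[simp] theorem mul_v (x y : E F p s) : (x * y).xv =
    p ^ 2 * (x.xa * y.xv + x.xv * y.xa) + 2⁻¹ * p * (x.xa * y.xb + x.xb * y.xa) +
      2⁻¹ * (x.xb * y.xv + x.xv * y.xb) := rfl
@[simp] theorem mul_w (x y : E F p s) : (x * y).xw =
    (x.xb * y.xv + x.xv * y.xb) + s * (x.xb * y.xw + x.xw * y.xb) + 2 * p * (x.xv * y.xv) := rfl
@[simp] theorem mul_n (x y : E F p s) : (x * y).xn = x.xb * y.xw + x.xw * y.xb := rfl
@[simp] theorem mul_b (x y : E F p s) : (x * y).xb = x.xb * y.xb := rfl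
@[simp] theorem add_a (x y : E F p s) : (x + y).xa = x.xa + y.xa := rfl
@[simp] theorem add_v (x y : E F p s) : (x + y).xv = x.xv + y.xv := rfl
@[simp] theorem add_w (x y : E F p s) : (x + y).xw = x.xw + y.xw := rfl
@[simp] theorem add_n (x y : E F p s) : (x + y).xn = x.xn + y.xn := rfl
@[simp] theorem add_b (x y : E F p s) : (x + y).xb = x.xb + y.xb := rfl
@[simp] theorem neg_a (x : E F p s) : (-x).xa = - x.xa := rfl
@[simp] theorem neg_v (x : E F p s) : (-x).xv = - x.xv := rfl
@[simp] theorem neg_w (x : E F p s) : (-x).xw = - x.xw := rfl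
@[simp] theorem neg_n (x : E F p s) : (-x).xn = - x.xn := rfl
@[simp] theorem neg_b (x : E F p s) : (-x).xb = - x.xb := rfl
@[simp] theorem smul_a (t : F) (y : E F p s) : (t • y).xa = t * y.xa := rfl
@[simp] theorem smul_v (t : F) (y : E F p s) : (t • y).xv = t * y.xv := rfl
@[simp] theorem smul_w (t : F) (y : E F p s) : (t • y).xw = t * y.xw := rfl
@[simp] theorem smul_n (t : F) (y : E F p s) : (t • y).xn = t * y.xn := rfl
@[simp] theorem smul_b (t : F) (y : E F p s) : (t • y).xb = t * y.xb := rfl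
@[simp] theorem zero_a : (0 : E F p s).xa = 0 := rfl
@[simp] theorem zero_v : (0 : E F p s).xv = 0 := rfl
@[simp] theorem zero_w : (0 : E F p s).xw = 0 := rfl
@[simp] theorem zero_n : (0 : E F p s).xn = 0 := rfl
@[simp] theorem zero_b : (0 : E F p s).xb = 0 := rfl

instance : NonUnitalNonAssocCommRing (E F p s) where
  left_distrib x y z := by ext <;> simp <;> ring
  right_distrib x y z := by ext <;> simp <;> ring
  zero_mul x := by ext <;> simp
  mul_zero x := by ext <;> simp
  mul_comm x y := by ext <;> simp only [mul_a, mul_v, mul_w, mul_n, mul_b] <;> ring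

instance : IsScalarTower F (E F p s) (E F p s) where
  smul_assoc t x y := by
    ext <;> simp only [smul_eq_mul, mul_a, mul_v, mul_w, mul_n, mul_b, smul_a, smul_v, smul_w,
      smul_n, smul_b] <;> ring

instance : SMulCommClass F (E F p s) (E F p s) where
  smul_comm t x y := by
    ext <;> simp only [smul_eq_mul, mul_a, mul_v, mul_w, mul_n, mul_b, smul_a, smul_v, smul_w,
      smul_n, smul_b] <;> ring

/-- The basis vector `a`. -/
def a : E F p s := ⟨1, 0, 0, 0, 0⟩
/-- The basis vector `v`. -/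
def v : E F p s := ⟨0, 1, 0, 0, 0⟩
/-- The basis vector `w`. -/
def w : E F p s := ⟨0, 0, 1, 0, 0⟩
/-- The basis vector `n`. -/
def n : E F p s := ⟨0, 0, 0, 1, 0⟩
/-- The basis vector `b`. -/
def b : E F p s := ⟨0, 0, 0, 0, 1⟩

/-- The fusion law, with eigenvalues `1, 0, p², (1 + p) / 2, (1 - p) / 2, s`. Here `p²` is odd
and the other eigenvalues are even; the product `x * y` is the set of all `z` of the right
parity, except that `0 * y` is `{y}` and `x * 0` is `{x}`. -/
def law (F : Type u) [Field F] (p s : F) : FusionLaw F where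
  carrier := {1, 0, p ^ 2, 2⁻¹ * (1 + p), 2⁻¹ * (1 - p), s}
  one_mem := by simp
  star x y := {z | ((x : F) = 0 → z = y) ∧ ((y : F) = 0 → z = x) ∧
    ((z : F) = p ^ 2 ↔ ¬ ((x : F) = p ^ 2 ↔ (y : F) = p ^ 2))}

theorem mem_eig {x y : E F p s} {t : F} : y ∈ eig F x t ↔ x * y = t • y :=
  Module.End.mem_eigenspace_iff

/-- The conditions on the parameters. -/
structure Good (p s : F) : Prop where
  two : (2 : F) ≠ 0
  p0 : p ≠ 0
  p1 : p ≠ 1
  p2 : p ≠ -1
  p3 : 2 * p ≠ 1
  p4 : 2 * p ≠ -1
  s0 : s ≠ 0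
  s1 : s ≠ 1
  s2 : s ≠ 2⁻¹ * (1 + p)
  s3 : s ≠ 2⁻¹ * (1 - p)
  s4 : s ≠ p ^ 2

theorem seress (p s : F) : IsSeress (law F p s) := by
  refine ⟨by simp [law], ?_⟩
  intro t
  constructor
  · intro z hz
    exact hz.1 rfl
  · intro z hz
    exact hz.2.1 rfl

open Classical in
/-- The grading of the fusion law. -/
noncomputable def grade (F : Type u) [Field F] (p s : F) : (law F p s).carrier → ZMod 2 :=
  fun t => if (t : F) = p ^ 2 then 1 else 0

theorem grading (p s : F) : IsGrading (law F p s) (grade F p s) := by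
  intro x y z hz
  have h := hz.2.2
  unfold grade
  by_cases hx : (x : F) = p ^ 2 <;> by_cases hy : (y : F) = p ^ 2 <;>
    by_cases hz' : (z : F) = p ^ 2 <;> simp [hx, hy, hz'] at h ⊢
  decide

theorem mem_eigSum {x y : E F p s} {S : Set (law F p s).carrier} (t : (law F p s).carrier)
    (ht : t ∈ S) (hy : x * y = (t : F) • y) : y ∈ eigSum (law F p s) x S := by
  have : eig F x (t : F) ≤ eigSum (law F p s) x S := le_iSup₂_of_le t ht le_rfl
  exact this (mem_eig.mpr hy)

theorem Good.sq_ne_zero (h : Good p s) : p ^ 2 ≠ 0 := pow_ne_zero _ h.p0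

theorem Good.sq_ne_one (h : Good p s) : p ^ 2 ≠ 1 := by
  intro h1
  have : (p - 1) * (p + 1) = 0 := by ring_nf; rw [h1]; ring
  rcases mul_eq_zero.mp this with h2 | h2
  · exact h.p1 (sub_eq_zero.mp h2)
  · exact h.p2 (eq_neg_of_add_eq_zero_left h2)

theorem Good.r_ne (h : Good p s) : 2⁻¹ * (1 + p) ≠ p ^ 2 := by
  intro h1
  have h2 : (2 : F) ≠ 0 := h.two
  have : (p - 1) * (2 * p + 1) = 0 := by
    have h3 : 1 + p = 2 * p ^ 2 := by
      rw [← h1, ← mul_assoc, mul_inv_cancel₀ h2, one_mul]
    linear_combination -h3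
  rcases mul_eq_zero.mp this with h4 | h4
  · exact h.p1 (sub_eq_zero.mp h4)
  · exact h.p4 (eq_neg_of_add_eq_zero_left h4)

theorem Good.r'_ne (h : Good p s) : 2⁻¹ * (1 - p) ≠ p ^ 2 := by
  intro h1
  have h2 : (2 : F) ≠ 0 := h.two
  have : (p + 1) * (2 * p - 1) = 0 := by
    have h3 : 1 - p = 2 * p ^ 2 := by
      rw [← h1, ← mul_assoc, mul_inv_cancel₀ h2, one_mul]
    linear_combination -h3
  rcases mul_eq_zero.mp this with h4 | h4
  · exact h.p2 (eq_neg_of_add_eq_zero_left h4)
  · exact h.p3 (sub_eq_zero.mp h4)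

/-- The eigenvectors of `a`. -/
theorem eig_a {x : E F p s} {t : F} (h : Good p s) (hx : a * x = t • x) :
    (t = 1 ∧ x = x.xa • a) ∨ (t = p ^ 2 ∧ x = x.xv • v) ∨
    (t = 0 ∧ x.xa = - (2⁻¹ * x.xb) ∧ p * x.xv = - (2⁻¹ * x.xb)) ∨ x = 0 := by
  have h2 : (2 : F) ≠ 0 := h.two
  have ea := congrArg xa hx
  have ev := congrArg xv hx
  have ew := congrArg xw hx
  have en := congrArg xn hx
  have eb := congrArg xb hx
  simp only [a, mul_a, mul_v, mul_w, mul_n, mul_b, smul_a, smul_v, smul_w, smul_n, smul_b,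
    zero_mul, one_mul, add_zero, zero_add, mul_zero] at ea ev ew en eb
  by_cases ht : t = 0
  · subst ht
    simp only [zero_mul] at ea ev
    refine Or.inr (Or.inr (Or.inl ⟨rfl, ?_, ?_⟩))
    · linear_combination ea
    · have h3 : p * (p * x.xv + 2⁻¹ * x.xb) = 0 := by linear_combination ev
      rcases mul_eq_zero.mp h3 with h4 | h4
      · exact absurd h4 h.p0
      · linear_combination h4
  · have hb : x.xb = 0 := by
      rcases mul_eq_zero.mp eb.symm with h3 | h3
      · exact absurd h3 ht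
      · exact h3
    have hw : x.xw = 0 := by
      rcases mul_eq_zero.mp ew.symm with h3 | h3
      · exact absurd h3 ht
      · exact h3
    have hn : x.xn = 0 := by
      rcases mul_eq_zero.mp en.symm with h3 | h3
      · exact absurd h3 ht
      · exact h3
    rw [hb, mul_zero, add_zero] at ea ev
    by_cases ht1 : t = 1
    · left
      refine ⟨ht1, ?_⟩
      rw [ht1] at ev
      have hv : x.xv = 0 := by
        have h3 : (p ^ 2 - 1) * x.xv = 0 := by linear_combination ev
        rcases mul_eq_zero.mp h3 with h4 | h4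
        · exact absurd (sub_eq_zero.mp h4) h.sq_ne_one
        · exact h4
      ext <;> simp [a, hb, hw, hn, hv]
    · have ha : x.xa = 0 := by
        have h3 : (t - 1) * x.xa = 0 := by linear_combination -ea
        rcases mul_eq_zero.mp h3 with h4 | h4
        · exact absurd (sub_eq_zero.mp h4) ht1
        · exact h4
      by_cases ht2 : t = p ^ 2
      · right; left
        refine ⟨ht2, ?_⟩
        ext <;> simp [v, hb, hw, hn, ha]
      · right; right; right
        have hv : x.xv = 0 := by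
          have h3 : (t - p ^ 2) * x.xv = 0 := by linear_combination -ev
          rcases mul_eq_zero.mp h3 with h4 | h4
          · exact absurd (sub_eq_zero.mp h4) ht2
          · exact h4
        ext <;> simp [hb, hw, hn, ha, hv]

theorem mem_star {x y z : (law F p s).carrier} : z ∈ (law F p s).star x y ↔
    ((x : F) = 0 → (z : F) = y) ∧ ((y : F) = 0 → (z : F) = x) ∧
    ((z : F) = p ^ 2 ↔ ¬ ((x : F) = p ^ 2 ↔ (y : F) = p ^ 2)) := by
  refine ⟨fun h => ⟨fun h1 => congrArg Subtype.val (h.1 h1),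
    fun h1 => congrArg Subtype.val (h.2.1 h1), h.2.2⟩,
    fun h => ⟨fun h1 => Subtype.ext (h.1 h1), fun h1 => Subtype.ext (h.2.1 h1), h.2.2⟩⟩

/-- The product of two eigenvectors of `a`. -/
theorem fusion_a (h : Good p s) {x y : E F p s} {r t : (law F p s).carrier}
    (hx : a * x = (r : F) • x) (hy : a * y = (t : F) • y) :
    x * y ∈ eigSum (law F p s) a ((law F p s).star r t) := by
  have h2 : (2 : F) ≠ 0 := h.two
  have hp : p ≠ 0 := h.p0
  have hp1 := h.sq_ne_one
  have hp1' := h.sq_ne_one.symm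
  have hp0 := h.sq_ne_zero
  have hp0' := h.sq_ne_zero.symm
  have hv : ∀ y : E F p s, y.xa = - (2⁻¹ * y.xb) → p * y.xv = - (2⁻¹ * y.xb) →
      (v : E F p s) * y = (2⁻¹ * y.xb + p ^ 2 * y.xa) • v := by
    intro y hy1 hy2
    ext
    · simp only [v, mul_a, smul_a, zero_mul, one_mul, mul_zero, add_zero, zero_add]
      linear_combination p * hy2
    · simp only [v, mul_v, smul_v, zero_mul, one_mul, mul_zero, add_zero, zero_add, mul_one]
      ring
    · simp only [v, mul_w, smul_w, zero_mul, one_mul, mul_zero, add_zero, zero_add]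
      have h3 : (2 : F) * 2⁻¹ = 1 := mul_inv_cancel₀ h2
      linear_combination 2 * hy2 - y.xb * h3
    · simp [v]
    · simp [v]
  rcases eig_a h hx with ⟨hr, hx'⟩ | ⟨hr, hx'⟩ | ⟨hr, hx1, hx2⟩ | hx'
  · rcases eig_a h hy with ⟨ht, hy'⟩ | ⟨ht, hy'⟩ | ⟨ht, hy1, hy2⟩ | hy'
    · -- 1, 1
      rw [hx', hy']
      apply mem_eigSum ⟨1, by simp [law]⟩
      · rw [mem_star, hr, ht]; simp [hp1']
      · ext <;> simp [a]
    · -- 1, p²
      rw [hx', hy']
      apply mem_eigSum ⟨p ^ 2, by simp [law]⟩
      · rw [mem_star, hr, ht]; simp [hp1', hp]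
      · ext <;> simp [a, v]
    · have : x * y = 0 := by
        rw [hx', smul_mul_assoc, hy, ht, zero_smul, smul_zero]
      rw [this]; exact zero_mem _
    · rw [hy', mul_zero]; exact zero_mem _
  · rcases eig_a h hy with ⟨ht, hy'⟩ | ⟨ht, hy'⟩ | ⟨ht, hy1, hy2⟩ | hy'
    · rw [hx', hy']
      apply mem_eigSum ⟨p ^ 2, by simp [law]⟩
      · rw [mem_star, hr, ht]; simp [hp1', hp]
      · ext <;> simp [a, v]
    · -- p², p²
      rw [hx', hy']
      have : (x.xv • v : E F p s) * (y.xv • v) =
          (⟨p ^ 2 * (x.xv * y.xv), 0, 0, 0, 0⟩ : E F p s) +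
          (⟨0, 0, 2 * p * (x.xv * y.xv), 0, 0⟩ : E F p s) := by
        ext <;> simp [v]
      rw [this]
      refine add_mem ?_ ?_
      · apply mem_eigSum ⟨1, by simp [law]⟩
        · rw [mem_star, hr, ht]; simp [hp1', hp]
        · ext <;> simp [a]
      · apply mem_eigSum ⟨0, by simp [law]⟩
        · rw [mem_star, hr, ht]; simp [hp0', hp]
        · ext <;> simp [a]
    · -- p², 0
      rw [hx', smul_mul_assoc, hv y hy1 hy2]
      apply mem_eigSum ⟨p ^ 2, by simp [law]⟩
      · rw [mem_star, hr, ht]; simp [hp0']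
      · ext <;> simp [a, v]
    · rw [hy', mul_zero]; exact zero_mem _
  · rcases eig_a h hy with ⟨ht, hy'⟩ | ⟨ht, hy'⟩ | ⟨ht, hy1, hy2⟩ | hy'
    · have : x * y = 0 := by
        rw [mul_comm, hy', smul_mul_assoc, hx, hr, zero_smul, smul_zero]
      rw [this]; exact zero_mem _
    · rw [mul_comm x y, hy', smul_mul_assoc, hv x hx1 hx2]
      apply mem_eigSum ⟨p ^ 2, by simp [law]⟩
      · rw [mem_star, hr, ht]; simp [hp0']
      · ext <;> simp [a, v]
    · -- 0, 0
      apply mem_eigSum ⟨0, by simp [law]⟩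
      · rw [mem_star, hr, ht]; simp [hp0']
      · have h3 : (2 : F) * 2⁻¹ = 1 := mul_inv_cancel₀ h2
        have e1 : (x * y).xa = - (2⁻¹ * (x * y).xb) := by
          simp only [mul_a, mul_b]
          rw [hx1, hy1]
          have e3 : 2⁻¹ * p * (x.xb * y.xv + x.xv * y.xb) = - (2⁻¹ * 2⁻¹ * 2 * (x.xb * y.xb)) := by
            linear_combination 2⁻¹ * x.xb * hy2 + 2⁻¹ * y.xb * hx2
          have e4 : p ^ 2 * (x.xv * y.xv) = 2⁻¹ * 2⁻¹ * (x.xb * y.xb) := by
            linear_combination p * y.xv * hx2 - 2⁻¹ * x.xb * hy2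
          rw [e3, e4]
          linear_combination (-2⁻¹ * x.xb * y.xb) * h3
        have e2 : p * (x * y).xv = - (2⁻¹ * (x * y).xb) := by
          simp only [mul_v, mul_b]
          rw [hx1, hy1]
          have e3 : 2⁻¹ * p * (x.xb * y.xv + x.xv * y.xb) = - (2⁻¹ * 2⁻¹ * 2 * (x.xb * y.xb)) := by
            linear_combination 2⁻¹ * x.xb * hy2 + 2⁻¹ * y.xb * hx2
          linear_combination e3 - (2⁻¹ * x.xb * y.xb) * h3 - 2⁻¹ * p ^ 2 * x.xb * hy2 - 2⁻¹ * p ^ 2 * y.xb * hx2
        ext
        · simp only [a, zero_smul, zero_a]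
          rw [mul_a]
          simp only [zero_mul, one_mul, add_zero, mul_zero]
          rw [e1]; ring
        · simp only [a, zero_smul, zero_v]
          rw [mul_v]
          simp only [zero_mul, one_mul, add_zero, mul_zero]
          linear_combination p * e2
        · simp [a]
        · simp [a]
        · simp [a]
    · rw [hy', mul_zero]; exact zero_mem _
  · rw [hx', zero_mul]; exact zero_mem _

theorem axis_a (h : Good p s) : IsPrimitiveAxis (law F p s) (a : E F p s) := by
  have h2 : (2 : F) ≠ 0 := h.two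
  have hp : p ≠ 0 := h.p0
  have idem : (a : E F p s) * a = a := by ext <;> simp [a]
  refine ⟨?_, idem, ?_, fun r t x hx y hy => fusion_a h (mem_eig.mp hx) (mem_eig.mp hy), ?_⟩
  · intro h
    have := congrArg xa h
    simp [a] at this
  · rw [eq_top_iff]
    intro x _
    have hx : x = (⟨x.xa + 2⁻¹ * x.xb, 0, 0, 0, 0⟩ : E F p s) +
        (⟨0, x.xv + 2⁻¹ * p⁻¹ * x.xb, 0, 0, 0⟩ : E F p s) +
        (⟨- (2⁻¹ * x.xb), - (2⁻¹ * p⁻¹ * x.xb), x.xw, x.xn, x.xb⟩ : E F p s) := by
      ext <;> simp
    rw [hx]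
    refine add_mem (add_mem ?_ ?_) ?_
    · apply mem_eigSum ⟨1, by simp [law]⟩ (Set.mem_univ _)
      ext <;> simp [a]
    · apply mem_eigSum ⟨p ^ 2, by simp [law]⟩ (Set.mem_univ _)
      ext <;> simp [a]
    · apply mem_eigSum ⟨0, by simp [law]⟩ (Set.mem_univ _)
      ext <;> simp [a]
      field_simp
      ring
  · apply le_antisymm
    · intro x hx
      rw [mem_eig] at hx
      rcases eig_a h hx with ⟨hr, hx'⟩ | ⟨hr, hx'⟩ | ⟨hr, hx1, hx2⟩ | hx'
      · exact Submodule.mem_span_singleton.mpr ⟨_, hx'.symm⟩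
      · exact absurd hr.symm h.sq_ne_one
      · exact absurd hr one_ne_zero
      · rw [hx']; exact zero_mem _
    · rw [Submodule.span_singleton_le_iff_mem, mem_eig, one_smul]
      exact idem

/-- `b` has no eigenvector for the odd eigenvalue. -/
theorem eig_b_odd {x : E F p s} (h : Good p s) (hx : b * x = (p ^ 2) • x) : x = 0 := by
  have h2 : (2 : F) ≠ 0 := h.two
  have ea := congrArg xa hx
  have ev := congrArg xv hx
  have ew := congrArg xw hx
  have en := congrArg xn hx
  have eb := congrArg xb hx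
  simp only [b, mul_a, mul_v, mul_w, mul_n, mul_b, smul_a, smul_v, smul_w, smul_n, smul_b,
    zero_mul, one_mul, add_zero, zero_add, mul_zero] at ea ev ew en eb
  have hb : x.xb = 0 := by
    have h3 : (1 - p ^ 2) * x.xb = 0 := by linear_combination eb
    rcases mul_eq_zero.mp h3 with h4 | h4
    · exact absurd (sub_eq_zero.mp h4).symm h.sq_ne_one
    · exact h4
  have hsum : x.xa + x.xv = 0 := by
    have h3 : (2⁻¹ * (1 + p) - p ^ 2) * (x.xa + x.xv) = 0 := by linear_combination ea + ev
    rcases mul_eq_zero.mp h3 with h4 | h4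
    · exact absurd (sub_eq_zero.mp h4) h.r_ne
    · exact h4
  have hdiff : x.xa - x.xv = 0 := by
    have h3 : (2⁻¹ * (1 - p) - p ^ 2) * (x.xa - x.xv) = 0 := by linear_combination ea - ev
    rcases mul_eq_zero.mp h3 with h4 | h4
    · exact absurd (sub_eq_zero.mp h4) h.r'_ne
    · exact h4
  have ha : x.xa = 0 := by
    have h3 : 2 * x.xa = 0 := by linear_combination hsum + hdiff
    exact (mul_eq_zero.mp h3).resolve_left h2
  have hv : x.xv = 0 := by linear_combination hsum - ha
  have hw : x.xw = 0 := by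
    have h3 : (s - p ^ 2) * x.xw = 0 := by linear_combination ew - hv
    rcases mul_eq_zero.mp h3 with h4 | h4
    · exact absurd (sub_eq_zero.mp h4) h.s4
    · exact h4
  have hn : x.xn = 0 := by
    have h3 : p ^ 2 * x.xn = 0 := by linear_combination hw - en
    exact (mul_eq_zero.mp h3).resolve_left h.sq_ne_zero
  ext <;> simp [ha, hv, hw, hn, hb]

/-- The eigenvectors of `b` with eigenvalue `0` are the multiples of `n`, so they annihilate the
whole algebra. -/
theorem eig_b_zero {x : E F p s} (h : Good p s) (hx : b * x = (0 : F) • x) (y : E F p s) :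
    x * y = 0 := by
  have h2 : (2 : F) ≠ 0 := h.two
  have ea := congrArg xa hx
  have ev := congrArg xv hx
  have ew := congrArg xw hx
  have en := congrArg xn hx
  have eb := congrArg xb hx
  simp only [b, mul_a, mul_v, mul_w, mul_n, mul_b, smul_a, smul_v, smul_w, smul_n, smul_b,
    zero_mul, one_mul, add_zero, zero_add, mul_zero] at ea ev ew en eb
  have hsum : x.xa + x.xv = 0 := by
    have h3 : (2⁻¹ * (1 + p)) * (x.xa + x.xv) = 0 := by
      linear_combination ea + ev
    rcases mul_eq_zero.mp h3 with h4 | h4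
    · rcases mul_eq_zero.mp h4 with h5 | h5
      · exact absurd h5 (inv_ne_zero h2)
      · exact absurd (eq_neg_of_add_eq_zero_right h5) h.p2
    · exact h4
  have hdiff : x.xa - x.xv = 0 := by
    have h3 : (2⁻¹ * (1 - p)) * (x.xa - x.xv) = 0 := by
      linear_combination ea - ev
    rcases mul_eq_zero.mp h3 with h4 | h4
    · rcases mul_eq_zero.mp h4 with h5 | h5
      · exact absurd h5 (inv_ne_zero h2)
      · exact absurd (sub_eq_zero.mp h5).symm h.p1
    · exact h4
  have ha : x.xa = 0 := by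
    have h3 : 2 * x.xa = 0 := by linear_combination hsum + hdiff
    exact (mul_eq_zero.mp h3).resolve_left h2
  have hv : x.xv = 0 := by linear_combination hsum - ha
  ext <;> simp [ha, hv, en, eb]

theorem decomp_b (h : Good p s) (x : E F p s) :
    ∃ y1 yr yr' ys y0 : E F p s, b * y1 = (1 : F) • y1 ∧ b * yr = (2⁻¹ * (1 + p)) • yr ∧
      b * yr' = (2⁻¹ * (1 - p)) • yr' ∧ b * ys = s • ys ∧ b * y0 = (0 : F) • y0 ∧
      x = y1 + yr + yr' + ys + y0 := by
  have h2 : (2 : F) ≠ 0 := h.two
  have hs := h.s0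
  have hr : 2⁻¹ * (1 + p) ≠ 0 := by
    intro h4
    rcases mul_eq_zero.mp h4 with h5 | h5
    · exact absurd h5 (inv_ne_zero h2)
    · exact absurd (eq_neg_of_add_eq_zero_right h5) h.p2
  have hr' : 2⁻¹ * (1 - p) ≠ 0 := by
    intro h4
    rcases mul_eq_zero.mp h4 with h5 | h5
    · exact absurd h5 (inv_ne_zero h2)
    · exact absurd (sub_eq_zero.mp h5).symm h.p1
  set r := 2⁻¹ * (1 + p) with hrdef
  set r' := 2⁻¹ * (1 - p) with hr'def
  have hrs : r - s ≠ 0 := sub_ne_zero.mpr h.s2.symm
  have hrs' : r' - s ≠ 0 := sub_ne_zero.mpr h.s3.symm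
  have e1 : 2⁻¹ + 2⁻¹ * p = r := by rw [hrdef]; ring
  have e2 : 2⁻¹ - 2⁻¹ * p = r' := by rw [hr'def]; ring
  -- the coefficients of `a + v` and `a - v`
  let c1 : F := 2⁻¹ * (x.xa + x.xv)
  let c2 : F := 2⁻¹ * (x.xa - x.xv)
  have hc1 : c1 + c2 = x.xa := by
    have h3 : (2 : F) * 2⁻¹ = 1 := mul_inv_cancel₀ h2
    simp only [c1, c2]; linear_combination x.xa * h3
  have hc2 : c1 - c2 = x.xv := by
    have h3 : (2 : F) * 2⁻¹ = 1 := mul_inv_cancel₀ h2
    simp only [c1, c2]; linear_combination x.xv * h3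
  let W : F := x.xw - c1 / (r - s) + c2 / (r' - s)
  let N : F := x.xn - c1 / (r * (r - s)) + c2 / (r' * (r' - s))
  refine ⟨⟨0, 0, 0, 0, x.xb⟩, ⟨c1, c1, c1 / (r - s), c1 / (r * (r - s)), 0⟩,
    ⟨c2, -c2, -(c2 / (r' - s)), -(c2 / (r' * (r' - s))), 0⟩,
    ⟨0, 0, W, W / s, 0⟩, ⟨0, 0, 0, N - W / s, 0⟩, ?_, ?_, ?_, ?_, ?_, ?_⟩
  · ext <;> simp [b]
  · ext
    · simp only [b, mul_a, smul_a, zero_mul, one_mul, mul_zero, add_zero, zero_add]
      rw [← e1]; ring
    · simp only [b, mul_v, smul_v, zero_mul, one_mul, mul_zero, add_zero, zero_add]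
      rw [← e1]; ring
    · simp only [b, mul_w, smul_w, zero_mul, one_mul, mul_zero, add_zero, zero_add]
      field_simp
      ring
    · simp only [b, mul_n, smul_n, zero_mul, one_mul, mul_zero, add_zero, zero_add]
      field_simp
    · simp [b]
  · ext
    · simp only [b, mul_a, smul_a, zero_mul, one_mul, mul_zero, add_zero, zero_add]
      rw [← e2]; ring
    · simp only [b, mul_v, smul_v, zero_mul, one_mul, mul_zero, add_zero, zero_add]
      rw [← e2]; ring
    · simp only [b, mul_w, smul_w, zero_mul, one_mul, mul_zero, add_zero, zero_add]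
      field_simp
      ring
    · simp only [b, mul_n, smul_n, zero_mul, one_mul, mul_zero, add_zero, zero_add]
      field_simp
    · simp [b]
  · ext
    · simp [b]
    · simp [b]
    · simp [b]
    · simp only [b, mul_n, smul_n, zero_mul, one_mul, mul_zero, add_zero, zero_add]
      field_simp
    · simp [b]
  · ext <;> simp [b]
  · ext
    · simp only [add_a, add_zero, zero_add]
      exact hc1.symm
    · simp only [add_v, add_zero, zero_add]
      rw [← hc2]; ring
    · simp only [add_w, add_zero, zero_add, W]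
      ring
    · simp only [add_n, add_zero, zero_add, N]
      ring
    · simp

theorem eigSum_b_even (h : Good p s) (S : Set (law F p s).carrier)
    (hS : ∀ t : (law F p s).carrier, (t : F) ≠ p ^ 2 → t ∈ S) :
    eigSum (law F p s) (b : E F p s) S = ⊤ := by
  rw [eq_top_iff]
  intro x _
  obtain ⟨y1, yr, yr', ys, y0, h1, hr, hr', hs, h0, rfl⟩ := decomp_b h x
  refine add_mem (add_mem (add_mem (add_mem ?_ ?_) ?_) ?_) ?_
  · exact mem_eigSum ⟨1, by simp [law]⟩ (hS _ h.sq_ne_one.symm) h1
  · exact mem_eigSum ⟨_, by simp [law]⟩ (hS _ h.r_ne) hr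
  · exact mem_eigSum ⟨_, by simp [law]⟩ (hS _ h.r'_ne) hr'
  · exact mem_eigSum ⟨s, by simp [law]⟩ (hS _ h.s4) hs
  · exact mem_eigSum ⟨0, by simp [law]⟩ (hS _ h.sq_ne_zero.symm) h0

theorem axis_b (h : Good p s) : IsPrimitiveAxis (law F p s) (b : E F p s) := by
  have h2 : (2 : F) ≠ 0 := h.two
  have idem : (b : E F p s) * b = b := by ext <;> simp [b]
  refine ⟨?_, idem, eigSum_b_even h _ (fun t _ => Set.mem_univ t), ?_, ?_⟩
  · intro h
    have := congrArg xb h
    simp [b] at this
  · intro r t x hx y hy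
    rw [mem_eig] at hx hy
    by_cases hr : (r : F) = p ^ 2
    · rw [hr] at hx
      rw [eig_b_odd h hx, zero_mul]; exact zero_mem _
    by_cases ht : (t : F) = p ^ 2
    · rw [ht] at hy
      rw [eig_b_odd h hy, mul_zero]; exact zero_mem _
    by_cases hr0 : (r : F) = 0
    · rw [hr0] at hx
      rw [eig_b_zero h hx]; exact zero_mem _
    by_cases ht0 : (t : F) = 0
    · rw [ht0] at hy
      rw [mul_comm, eig_b_zero h hy]; exact zero_mem _
    rw [eigSum_b_even h]
    · exact Submodule.mem_top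
    · intro z hz
      rw [mem_star]
      simp [hr, ht, hr0, ht0, hz]
  · apply le_antisymm
    · intro x hx
      rw [mem_eig, one_smul] at hx
      have ea := congrArg xa hx
      have ev := congrArg xv hx
      have ew := congrArg xw hx
      have en := congrArg xn hx
      simp only [b, mul_a, mul_v, mul_w, mul_n, zero_mul, one_mul, add_zero, zero_add,
        mul_zero] at ea ev ew en
      have h3 : (2 : F) * 2⁻¹ = 1 := mul_inv_cancel₀ h2
      have hsum : x.xa + x.xv = 0 := by
        have h4 : (p - 1) * (x.xa + x.xv) = 0 := by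
          linear_combination 2 * ea + 2 * ev - (1 + p) * (x.xa + x.xv) * h3
        exact (mul_eq_zero.mp h4).resolve_left (sub_ne_zero.mpr h.p1)
      have hdiff : x.xa - x.xv = 0 := by
        have h4 : (p + 1) * (x.xa - x.xv) = 0 := by
          linear_combination -2 * ea + 2 * ev + (1 - p) * (x.xa - x.xv) * h3
        exact (mul_eq_zero.mp h4).resolve_left
          (fun h5 => h.p2 (eq_neg_of_add_eq_zero_left h5))
      have ha : x.xa = 0 := by
        have h3 : 2 * x.xa = 0 := by linear_combination hsum + hdiff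
        exact (mul_eq_zero.mp h3).resolve_left h2
      have hv : x.xv = 0 := by linear_combination hsum - ha
      have hw : x.xw = 0 := by
        have h3 : (s - 1) * x.xw = 0 := by linear_combination ew - hv
        exact (mul_eq_zero.mp h3).resolve_left (sub_ne_zero.mpr h.s1)
      have hn : x.xn = 0 := by rw [← en, hw]
      refine Submodule.mem_span_singleton.mpr ⟨x.xb, ?_⟩
      ext <;> simp [b, ha, hv, hw, hn]
    · rw [Submodule.span_singleton_le_iff_mem, mem_eig, one_smul]
      exact idem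

theorem v_eq (h : Good p s) : (v : E F p s) = p⁻¹ • (2 • (a * b) - a) := by
  have hp := h.p0
  have h3 : (2 : F) * 2⁻¹ = 1 := mul_inv_cancel₀ h.two
  rw [two_nsmul]
  have e : ∀ x y : E F p s, x - y = x + (-1 : F) • y := fun x y => by
    rw [neg_smul, one_smul, sub_eq_add_neg]
  rw [e]
  ext
  · simp only [a, b, v, add_a, smul_a, mul_a, mul_one, mul_zero, zero_mul, add_zero, zero_add]
    linear_combination -(p⁻¹) * h3
  · simp only [a, b, v, add_v, smul_v, mul_v, mul_one, mul_zero, zero_mul, add_zero, zero_add]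
    have h4 : p⁻¹ * p = 1 := inv_mul_cancel₀ hp
    linear_combination -(p⁻¹ * p) * h3 - h4
  · simp [a, b, v]
  · simp [a, b, v]
  · simp [a, b, v]

theorem w_eq (p s : F) : (w : E F p s) = b * v + (-2⁻¹ : F) • (v + p • a) := by
  ext <;> simp [a, b, v, w]

theorem n_eq : (n : E F p s) = b * w + (-s) • w := by
  ext <;> simp [b, w, n]

theorem isAxial (h : Good p s) :
    IsPrimitiveAxialAlgebra (law F p s) ({a, b} : Set (E F p s)) := by
  refine ⟨?_, ?_⟩
  · rintro x (rfl | rfl)
    · exact axis_a h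
    · exact axis_b h
  · rw [eq_top_iff]
    rintro x -
    have ha : (a : E F p s) ∈ NonUnitalAlgebra.adjoin F ({a, b} : Set (E F p s)) :=
      NonUnitalAlgebra.subset_adjoin F (by simp)
    have hb : (b : E F p s) ∈ NonUnitalAlgebra.adjoin F ({a, b} : Set (E F p s)) :=
      NonUnitalAlgebra.subset_adjoin F (by simp)
    have hv : (v : E F p s) ∈ NonUnitalAlgebra.adjoin F ({a, b} : Set (E F p s)) := by
      rw [v_eq h]
      exact SMulMemClass.smul_mem _ (sub_mem (nsmul_mem (mul_mem ha hb) 2) ha)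
    have hw : (w : E F p s) ∈ NonUnitalAlgebra.adjoin F ({a, b} : Set (E F p s)) := by
      rw [w_eq]
      exact add_mem (mul_mem hb hv) (SMulMemClass.smul_mem _
        (add_mem hv (SMulMemClass.smul_mem _ ha)))
    have hn : (n : E F p s) ∈ NonUnitalAlgebra.adjoin F ({a, b} : Set (E F p s)) := by
      rw [n_eq]
      exact add_mem (mul_mem hb hw) (SMulMemClass.smul_mem _ hw)
    have hx : x = x.xa • a + x.xv • v + x.xw • w + x.xn • n + x.xb • b := by
      ext <;> simp [a, b, v, w, n]
    rw [hx]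
    exact add_mem (add_mem (add_mem (add_mem (SMulMemClass.smul_mem _ ha)
      (SMulMemClass.smul_mem _ hv)) (SMulMemClass.smul_mem _ hw)) (SMulMemClass.smul_mem _ hn))
      (SMulMemClass.smul_mem _ hb)

/-- The block of `a` is contained in the span of `a, v, w, n`. -/
theorem block_coord {x : E F p s} (hx : x ∈ idealOf F (a : E F p s)) : x.xb = 0 := by
  let I : Submodule F (E F p s) :=
    { carrier := {x | x.xb = 0}
      add_mem' := by
        intro x y h1 h2
        show (x + y).xb = 0
        have h1' : x.xb = 0 := h1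
        have h2' : y.xb = 0 := h2
        simp [h1', h2']
      zero_mem' := rfl
      smul_mem' := by
        intro t x h1
        have h1' : x.xb = 0 := h1
        show (t • x).xb = 0
        simp [h1'] }
  have hI : IsIdeal I := by
    intro x y h1
    have h1' : y.xb = 0 := h1
    constructor
    · show (x * y).xb = 0
      simp [h1']
    · show (y * x).xb = 0
      simp [h1']
  exact idealOf_le hI (show (a : E F p s).xb = 0 from rfl) hx

theorem v_mem (h : Good p s) : (v : E F p s) ∈ idealOf F (a : E F p s) := by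
  have ha := mem_idealOf (F := F) (a : E F p s)
  have hb : (a : E F p s) * b ∈ idealOf F (a : E F p s) := (idealOf_isIdeal a b a ha).2
  rw [v_eq h]
  exact Submodule.smul_mem _ _ (sub_mem (nsmul_mem hb 2) ha)

theorem w_mem (h : Good p s) : (w : E F p s) ∈ idealOf F (a : E F p s) := by
  have ha := mem_idealOf (F := F) (a : E F p s)
  have hv := v_mem h
  rw [w_eq]
  exact add_mem (idealOf_isIdeal a b v hv).1
    (Submodule.smul_mem _ _ (add_mem hv (Submodule.smul_mem _ _ ha)))

theorem n_mem (h : Good p s) : (n : E F p s) ∈ idealOf F (a : E F p s) := by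
  have hw := w_mem h
  rw [n_eq]
  exact add_mem (idealOf_isIdeal a b w hw).1 (Submodule.smul_mem _ _ hw)

theorem decomposable (h : Good p s) : Decomposable F (block F (a : E F p s)) := by
  -- the two ideals
  let J0 : Submodule F (block F (a : E F p s)) :=
    { carrier := {x | (x : E F p s).xn = 0}
      add_mem' := by
        intro x y h1 h2
        have h1' : (x : E F p s).xn = 0 := h1
        have h2' : (y : E F p s).xn = 0 := h2
        show ((x + y : block F (a : E F p s)) : E F p s).xn = 0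
        simp [h1', h2']
      zero_mem' := rfl
      smul_mem' := by
        intro t x h1
        have h1' : (x : E F p s).xn = 0 := h1
        show ((t • x : block F (a : E F p s)) : E F p s).xn = 0
        simp [h1'] }
  let J1 : Submodule F (block F (a : E F p s)) :=
    { carrier := {x | (x : E F p s).xa = 0 ∧ (x : E F p s).xv = 0 ∧ (x : E F p s).xw = 0}
      add_mem' := by
        rintro x y ⟨h1, h2, h3⟩ ⟨h4, h5, h6⟩
        exact ⟨by simp [h1, h4], by simp [h2, h5], by simp [h3, h6]⟩
      zero_mem' := ⟨rfl, rfl, rfl⟩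
      smul_mem' := by
        rintro t x ⟨h1, h2, h3⟩
        exact ⟨by simp [h1], by simp [h2], by simp [h3]⟩ }
  have hJ0 : IsIdeal J0 := by
    intro x y _
    have hx1 := block_coord x.2
    have hy1 := block_coord y.2
    constructor
    · show ((x * y : block F (a : E F p s)) : E F p s).xn = 0
      simp [hx1, hy1]
    · show ((y * x : block F (a : E F p s)) : E F p s).xn = 0
      simp [hx1, hy1]
  have hJ1 : IsIdeal J1 := by
    rintro x y ⟨h1, h2, h3⟩
    have hx1 := block_coord x.2
    have hy1 := block_coord y.2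
    exact ⟨⟨by simp [h1, h2, hx1, hy1], by simp [h1, h2, hx1, hy1], by simp [h2, h3, hx1, hy1]⟩,
      ⟨by simp [h1, h2, hx1, hy1], by simp [h1, h2, hx1, hy1], by simp [h2, h3, hx1, hy1]⟩⟩
  have hJ0' : J0 ≠ ⊤ := by
    intro h'
    have h1 : (⟨n, n_mem h⟩ : block F (a : E F p s)) ∈ J0 := by rw [h']; exact Submodule.mem_top
    have h2 : (n : E F p s).xn = 0 := h1
    simp [n] at h2
  have hJ1' : J1 ≠ ⊤ := by
    intro h'
    have h1 : (⟨a, mem_idealOf a⟩ : block F (a : E F p s)) ∈ J1 := by
      rw [h']; exact Submodule.mem_top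
    have h2 : (a : E F p s).xa = 0 := h1.1
    simp [a] at h2
  unfold Decomposable
  rw [eq_top_iff]
  rintro x -
  have e0 : J0 ≤ sSup {J : Submodule F (block F (a : E F p s)) | IsIdeal J ∧ J ≠ ⊤} :=
    le_sSup ⟨hJ0, hJ0'⟩
  have e1 : J1 ≤ sSup {J : Submodule F (block F (a : E F p s)) | IsIdeal J ∧ J ≠ ⊤} :=
    le_sSup ⟨hJ1, hJ1'⟩
  have hx1 := block_coord x.2
  let y0 : block F (a : E F p s) := (x : E F p s).xa • ⟨a, mem_idealOf a⟩ +
    (x : E F p s).xv • ⟨v, v_mem h⟩ + (x : E F p s).xw • ⟨w, w_mem h⟩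
  let y1 : block F (a : E F p s) := (x : E F p s).xn • ⟨n, n_mem h⟩
  have hy0 : y0 ∈ J0 := by
    show ((x : E F p s).xa • (a : E F p s) + (x : E F p s).xv • (v : E F p s) +
      (x : E F p s).xw • (w : E F p s)).xn = 0
    simp [a, v, w]
  have hy1 : y1 ∈ J1 := by
    refine ⟨?_, ?_, ?_⟩
    · show ((x : E F p s).xn • (n : E F p s)).xa = 0
      simp [n]
    · show ((x : E F p s).xn • (n : E F p s)).xv = 0
      simp [n]
    · show ((x : E F p s).xn • (n : E F p s)).xw = 0
      simp [n]
  have hxy : x = y0 + y1 := by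
    apply Subtype.ext
    show (x : E F p s) = (x : E F p s).xa • (a : E F p s) + (x : E F p s).xv • (v : E F p s) +
      (x : E F p s).xw • (w : E F p s) + (x : E F p s).xn • (n : E F p s)
    ext <;> simp [a, v, w, n, hx1]
  rw [hxy]
  exact add_mem (e0 hy0) (e1 hy1)

end E

/-- In a field of characteristic not two with more than five elements, every set of at most five
elements has a nonempty complement. -/
theorem exists_notMem (F : Type u) [Field F] (h2 : (2 : F) ≠ 0) (h3 : Nat.card F ≠ 3)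
    (h5 : Nat.card F ≠ 5) (S : Finset F) (hS : S.card ≤ 5) : ∃ x : F, x ∉ S := by
  by_contra hcon
  push Not at hcon
  have hfin : Finite F := Set.finite_univ_iff.mp (S.finite_toSet.subset (fun x _ => hcon x))
  have := Fintype.ofFinite F
  have hcard : Fintype.card F ≤ 5 := by
    rw [← Finset.card_univ]
    exact (Finset.card_le_card (fun x _ => hcon x)).trans hS
  have hz : ((Fintype.card F : ℕ) : F) = 0 := Nat.cast_card_eq_zero F
  have h1 : 1 < Fintype.card F := Fintype.one_lt_card
  rw [Nat.card_eq_fintype_card] at h3 h5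
  generalize hc : Fintype.card F = c at *
  interval_cases c
  · exact h2 (by exact_mod_cast hz)
  · exact h3 rfl
  · have : (2 : F) * 2 = 0 := by
      have h4 : ((4 : ℕ) : F) = 0 := hz
      push_cast at h4
      linear_combination h4
    exact h2 ((mul_eq_zero.mp this).elim id id)
  · exact h5 rfl

theorem exists_good (F : Type u) [Field F] (h2 : (2 : F) ≠ 0) (h3 : Nat.card F ≠ 3)
    (h5 : Nat.card F ≠ 5) : ∃ p s : F, E.Good p s := by
  classical
  obtain ⟨p, hp⟩ := exists_notMem F h2 h3 h5 {0, 1, -1, 2⁻¹, -2⁻¹} Finset.card_le_five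
  obtain ⟨s, hs⟩ := exists_notMem F h2 h3 h5 {0, 1, 2⁻¹ * (1 + p), 2⁻¹ * (1 - p), p ^ 2}
    Finset.card_le_five
  simp only [Finset.mem_insert, Finset.mem_singleton, not_or] at hp hs
  refine ⟨p, s, h2, hp.1, hp.2.1, hp.2.2.1, ?_, ?_, hs.1, hs.2.1, hs.2.2.1, hs.2.2.2.1,
    hs.2.2.2.2⟩
  · intro h
    apply hp.2.2.2.1
    rw [← one_mul (2⁻¹ : F), ← h]
    field_simp
  · intro h
    apply hp.2.2.2.2
    have : p = 2 * p * 2⁻¹ := by field_simp
    rw [this, h]
    ring

/-- Over every field of characteristic different from two with more than five elements there is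
a primitive axial algebra, generated by two axes `a` and `b`, for a fusion law which is Seress
and graded by `ZMod 2` in such a way that `a` has a nonzero odd part, such that the block of `a`
is decomposable. -/
theorem result (F : Type u) [Field F] (h2 : (2 : F) ≠ 0) (h3 : Nat.card F ≠ 3)
    (h5 : Nat.card F ≠ 5) :
    ∃ (A : Type u) (_ : NonUnitalNonAssocCommRing A) (_ : Module F A) (_ : IsScalarTower F A A)
      (_ : SMulCommClass F A A) (L : FusionLaw F) (d : L.carrier → ZMod 2) (a b : A),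
      Module.finrank F A = 5 ∧ IsSeress L ∧ IsGrading L d ∧
      (∃ t : L.carrier, d t = 1 ∧ eig F a (t : F) ≠ ⊥) ∧
      IsPrimitiveAxialAlgebra L {a, b} ∧ Decomposable F (block F a) := by
  obtain ⟨p, s, h⟩ := exists_good F h2 h3 h5
  refine ⟨E F p s, inferInstance, inferInstance, inferInstance, inferInstance, E.law F p s,
    E.grade F p s, E.a, E.b, ?_, E.seress p s, E.grading p s, ⟨⟨p ^ 2, by simp [E.law]⟩, ?_, ?_⟩,
    E.isAxial h, E.decomposable h⟩
  · exact E.finrank_eq
  · simp [E.grade]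
  · intro hbot
    have h1 : (E.v : E F p s) ∈ eig F (E.a : E F p s) (p ^ 2) := by
      rw [E.mem_eig]
      ext <;> simp [E.a, E.v]
    rw [show eig F (E.a : E F p s) (p ^ 2) = ⊥ from hbot, Submodule.mem_bot] at h1
    have := congrArg E.xv h1
    simp [E.v] at this

end Pool.Agent.Results.MP_89b943_al.SeressBlocks
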